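import Pool.Agent.H18.WE.Defs

/-!
# (WE) affine approximation of `V`
-/

set_option autoImplicit false

open Filter Topology Metric Set MeasureTheory

namespace Pool.Agent.H18.WE

variable {J : Set ℂ} {V : ℂ → ℂ} {C θ r1 : ℝ}

private theorem tl {s t : ℝ} (hs : 0 < s) (ht : 0 < t) : t * |Real.log (s / t)| ≤ s + t ^ 2 / s := by
  have hq : 0 < s / t := div_pos hs ht
  have h1 := Real.log_le_sub_one_of_pos hq
  have h2 := Real.log_le_sub_one_of_pos (inv_pos.2 hq)
  rw [Real.log_inv, inv_div] at h2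
  have h3 : 0 ≤ t ^ 2 / s := by positivity
  rcases abs_cases (Real.log (s / t)) with ⟨h4, -⟩ | ⟨h4, -⟩
  · rw [h4]
    have h5 : t * Real.log (s / t) ≤ t * (s / t - 1) := mul_le_mul_of_nonneg_left h1 ht.le
    have h6 : t * (s / t - 1) = s - t := by field_simp
    linarith
  · rw [h4]
    have h5 : t * -Real.log (s / t) ≤ t * (t / s - 1) := mul_le_mul_of_nonneg_left h2 ht.le
    have h6 : t * (t / s - 1) = t ^ 2 / s - t := by ring
    linarith

/-- an affine map near `V` at `x` on the scale `r` -/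
theorem aff (h : TP J V C θ r1) : ∃ K : ℝ, 0 < K ∧ ∀ x ∈ J, ∀ r : ℝ, 0 < r → r ≤ r1 → ∃ α β : ℂ,
    ‖α‖ ≤ K / r ∧ ‖β‖ ≤ K / r ∧ ∀ y ∈ J, ‖y - x‖ ≤ 16 * r → ‖V y - (α + β * y)‖ ≤ K * r := by
  have hC := h.hC
  have hθ := h.hθ
  have hr1 := h.hr1
  obtain ⟨R, hR⟩ := h.Jc.isBounded.subset_closedBall (0 : ℂ)
  obtain ⟨K, hK⟩ : ∃ K : ℝ, K = C * r1 + 2 * C / θ + 2 * C / θ * |R| + C * (17 + 256 / θ) + 1 := ⟨_, rfl⟩
  have t1 : 0 ≤ C * r1 := by positivity
  have t2 : 0 ≤ 2 * C / θ := by positivity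
  have t3 : 0 ≤ 2 * C / θ * |R| := by positivity
  have t4 : 0 ≤ C * (17 + 256 / θ) := by positivity
  refine ⟨K, by rw [hK]; linarith, fun x hx r hr hrr => ?_⟩
  obtain ⟨z, hz, hz1, hz2⟩ := h.th x hx r hr hrr
  have hs0 : 0 < ‖z - x‖ := lt_of_lt_of_le (by positivity) hz1
  have hzx : z ≠ x := by
    intro h1
    rw [h1, sub_self, norm_zero] at hs0
    exact lt_irrefl _ hs0
  have hβ : ‖(V z - V x) / (z - x)‖ ≤ 2 * C / θ / r := by
    rw [norm_div, div_le_iff₀ hs0]
    have h1 : ‖V z - V x‖ ≤ 2 * C := by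
      have := norm_sub_le (V z) (V x)
      have := h.bd z hz
      have := h.bd x hx
      linarith
    have h2 : 2 * C / θ / r * (θ * r) ≤ 2 * C / θ / r * ‖z - x‖ := mul_le_mul_of_nonneg_left hz1 (by positivity)
    have h3 : 2 * C / θ / r * (θ * r) = 2 * C := by field_simp
    linarith
  have hxR : ‖x‖ ≤ |R| := (mem_closedBall_zero_iff.1 (hR hx)).trans (le_abs_self R)
  refine ⟨V x - (V z - V x) / (z - x) * x, (V z - V x) / (z - x), ?_, ?_, ?_⟩
  · have h1 := norm_sub_le (V x) ((V z - V x) / (z - x) * x)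
    rw [norm_mul] at h1
    have h2 : ‖(V z - V x) / (z - x)‖ * ‖x‖ ≤ 2 * C / θ / r * |R| :=
      mul_le_mul hβ hxR (norm_nonneg _) (by positivity)
    have h3 := h.bd x hx
    have h4 : C ≤ C * r1 / r := by
      rw [le_div_iff₀ hr]
      exact mul_le_mul_of_nonneg_left hrr hC
    have h5 : 2 * C / θ / r * |R| = (2 * C / θ * |R|) / r := by ring
    have h6 : (C * r1 + 2 * C / θ * |R|) / r ≤ K / r := by
      refine div_le_div_of_nonneg_right ?_ hr.le
      rw [hK]
      linarith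
    rw [add_div] at h6
    linarith
  · refine hβ.trans (div_le_div_of_nonneg_right ?_ hr.le)
    rw [hK]
    linarith
  · intro y hy hyx
    have hKr : C * (17 + 256 / θ) * r ≤ K * r := by
      refine mul_le_mul_of_nonneg_right ?_ hr.le
      rw [hK]
      linarith
    refine le_trans ?_ hKr
    have e1 : V y - ((V x - (V z - V x) / (z - x) * x) + (V z - V x) / (z - x) * y) =
        V y - V x - (y - x) / (z - x) * (V z - V x) := by ring
    rw [e1]
    by_cases hyx' : y = x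
    · rw [hyx']
      simp only [sub_self, zero_div, zero_mul, norm_zero]
      positivity
    · have ht0 : 0 < ‖y - x‖ := norm_pos_iff.2 (sub_ne_zero.2 hyx')
      refine (h.tri y hy x hx z hz hyx' hzx).trans ?_
      have h1 := tl hs0 ht0
      have h2 : ‖y - x‖ ^ 2 / ‖z - x‖ ≤ 256 / θ * r := by
        rw [div_le_iff₀ hs0]
        have h3 : ‖y - x‖ ^ 2 ≤ (16 * r) ^ 2 := pow_le_pow_left₀ ht0.le hyx 2
        have h4 : 256 / θ * r * (θ * r) ≤ 256 / θ * r * ‖z - x‖ := mul_le_mul_of_nonneg_left hz1 (by positivity)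
        have h5 : 256 / θ * r * (θ * r) = (16 * r) ^ 2 := by
          field_simp
          ring
        linarith
      have h3 : ‖y - x‖ * (1 + |Real.log (‖z - x‖ / ‖y - x‖)|) ≤ (17 + 256 / θ) * r := by
        have h4 : ‖z - x‖ ≤ r := hz2.trans (by linarith)
        nlinarith
      rw [mul_assoc, mul_assoc]
      exact mul_le_mul_of_nonneg_left h3 hC

/-- two good affine maps are near to each other -/
theorem cmp (h : TP J V C θ r1) {K : ℝ} {x : ℂ} (hx : x ∈ J) {r r' : ℝ} (hr : 0 < r) (hrr : r ≤ r1) (h1 : r ≤ r')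
    (h2 : r' ≤ 2 * r) {α β α' β' : ℂ} (hg : Gd J V K x r α β) (hg' : Gd J V K x r' α' β') {w : ℂ} (hw : ‖w - x‖ ≤ r') :
    ‖(α' + β' * w) - (α + β * w)‖ ≤ K * (3 + 12 / θ) * r := by
  have hθ := h.hθ
  obtain ⟨y, hy, hy1, hy2⟩ := h.th x hx r hr hrr
  have hs0 : 0 < ‖y - x‖ := lt_of_lt_of_le (by positivity) hy1
  have hyx : y - x ≠ 0 := norm_pos_iff.1 hs0
  have a1 := hg x hx (by rw [sub_self, norm_zero]; linarith)
  have a2 := hg' x hx (by rw [sub_self, norm_zero]; linarith)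
  have a3 := hg y hy (by linarith)
  have a4 := hg' y hy (by linarith)
  have hK0 : 0 ≤ K := by
    have := (norm_nonneg _).trans a1
    exact nonneg_of_mul_nonneg_left this hr
  have hKr : K * r' ≤ 2 * (K * r) := by
    have := mul_le_mul_of_nonneg_left h2 hK0
    linarith
  have b1 : ‖(α' + β' * x) - (α + β * x)‖ ≤ 3 * (K * r) := by
    have e1 : (α' + β' * x) - (α + β * x) = (V x - (α + β * x)) - (V x - (α' + β' * x)) := by ring
    rw [e1]
    have := norm_sub_le (V x - (α + β * x)) (V x - (α' + β' * x))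
    linarith
  have b2 : ‖(α' + β' * y) - (α + β * y)‖ ≤ 3 * (K * r) := by
    have e1 : (α' + β' * y) - (α + β * y) = (V y - (α + β * y)) - (V y - (α' + β' * y)) := by ring
    rw [e1]
    have := norm_sub_le (V y - (α + β * y)) (V y - (α' + β' * y))
    linarith
  have e2 : (α' + β' * w) - (α + β * w) = ((α' + β' * x) - (α + β * x)) +
      (w - x) / (y - x) * (((α' + β' * y) - (α + β * y)) - ((α' + β' * x) - (α + β * x))) := by
    field_simp
    ring
  rw [e2]
  have b3 : ‖(w - x) / (y - x)‖ ≤ 2 / θ := by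
    rw [norm_div, div_le_iff₀ hs0]
    have h3 : 2 / θ * (θ * r) ≤ 2 / θ * ‖y - x‖ := mul_le_mul_of_nonneg_left hy1 (by positivity)
    have h4 : 2 / θ * (θ * r) = 2 * r := by field_simp
    linarith
  have b4 : ‖((α' + β' * y) - (α + β * y)) - ((α' + β' * x) - (α + β * x))‖ ≤ 6 * (K * r) := by
    have := norm_sub_le ((α' + β' * y) - (α + β * y)) ((α' + β' * x) - (α + β * x))
    linarith
  have b5 := norm_add_le ((α' + β' * x) - (α + β * x))
    ((w - x) / (y - x) * (((α' + β' * y) - (α + β * y)) - ((α' + β' * x) - (α + β * x))))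
  rw [norm_mul] at b5
  have b6 := mul_le_mul b3 b4 (norm_nonneg _) (by positivity)
  have e3 : 2 / θ * (6 * (K * r)) = 12 / θ * (K * r) := by ring
  have e4 : K * (3 + 12 / θ) * r = 3 * (K * r) + 12 / θ * (K * r) := by ring
  linarith

/-- the square of a point of the grid -/
private noncomputable def gq (r : ℝ) (u : ℂ) : ℤ × ℤ := (⌊u.re / r⌋, ⌊u.im / r⌋)

private theorem gq_meas (r : ℝ) : Measurable (gq r) :=
  (Int.measurable_floor.comp (Complex.measurable_re.div_const r)).prodMk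
    (Int.measurable_floor.comp (Complex.measurable_im.div_const r))

private theorem fl1 {r a b : ℝ} (hr : 0 < r) (h : ⌊a / r⌋ = ⌊b / r⌋) : |a - b| ≤ r := by
  have h1 := Int.abs_sub_lt_one_of_floor_eq_floor h
  have h2 : a - b = (a / r - b / r) * r := by field_simp
  rw [h2, abs_mul, abs_of_pos hr]
  nlinarith

private theorem gq_near {r : ℝ} (hr : 0 < r) {u v : ℂ} (h : gq r u = gq r v) : ‖u - v‖ ≤ 2 * r := by
  have h1 : ⌊u.re / r⌋ = ⌊v.re / r⌋ := congrArg Prod.fst h
  have h2 : ⌊u.im / r⌋ = ⌊v.im / r⌋ := congrArg Prod.snd h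
  have h3 := fl1 hr h1
  have h4 := fl1 hr h2
  have h5 := Complex.norm_le_abs_re_add_abs_im (u - v)
  rw [Complex.sub_re, Complex.sub_im] at h5
  linarith

/-- the field of affine maps of the scale `r` -/
theorem fld (h : TP J V C θ r1) : ∃ K : ℝ, 0 < K ∧ ∀ r : ℝ, 0 < r → r ≤ r1 → ∃ α β : ℂ → ℂ, Fd J V K r α β := by
  obtain ⟨K, hK, ha⟩ := aff h
  refine ⟨K, hK, fun r hr hrr => ?_⟩
  have key : ∀ q : ℤ × ℤ, ∃ p : ℂ × ℂ, ‖p.1‖ ≤ K / r ∧ ‖p.2‖ ≤ K / r ∧ ∀ x ∈ J, ∀ u, gq r u = q → ‖u - x‖ ≤ r →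
      Gd J V K x r p.1 p.2 := by
    intro q
    by_cases hq : ∃ x ∈ J, ∃ u, gq r u = q ∧ ‖u - x‖ ≤ r
    · obtain ⟨x, hx, u, hu, hux⟩ := hq
      obtain ⟨α, β, h1, h2, h3⟩ := ha x hx r hr hrr
      refine ⟨(α, β), h1, h2, fun x' hx' u' hu' hux' y hy hyx => h3 y hy ?_⟩
      have h4 := gq_near hr (hu'.trans hu.symm)
      have e1 : y - x = (y - x') + (-(u' - x')) + (u' - u) + (u - x) := by ring
      rw [e1]
      refine (norm_add_le _ _).trans ?_
      refine (add_le_add_left (norm_add_le _ _) _).trans ?_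
      have h5 := norm_add_le (y - x') (-(u' - x'))
      rw [norm_neg] at h5
      linarith
    · refine ⟨(0, 0), by simp only [norm_zero]; positivity, by simp only [norm_zero]; positivity, ?_⟩
      intro x hx u hu hux
      exact absurd ⟨x, hx, u, hu, hux⟩ hq
  choose F h1 h2 h3 using key
  have hF : Measurable F := measurable_of_countable F
  have hm : Measurable fun u => F (gq r u) := hF.comp (gq_meas r)
  exact ⟨fun u => (F (gq r u)).1, fun u => (F (gq r u)).2, measurable_fst.comp hm, measurable_snd.comp hm,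
    ⟨K / r, fun u => h1 _⟩, ⟨K / r, fun u => h2 _⟩, fun x hx u hu => h3 _ x hx u rfl hu⟩

end Pool.Agent.H18.WE
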