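import Pool.Agent.H18.WE.Defs
import Mathlib.Analysis.Calculus.ContDiff.Convolution

/-!
# (WE) mollified fields of affine maps
-/

set_option autoImplicit false

open Filter Topology Metric Set MeasureTheory

namespace Pool.Agent.H18.WE

open scoped Convolution

/-- the complex valued mollifier -/
noncomputable def ec (e : ℂ → ℝ) (v : ℂ) : ℂ := (e v : ℂ)

theorem li_bd {α : ℂ → ℂ} (hm : Measurable α) (hb : ∃ B : ℝ, ∀ u, ‖α u‖ ≤ B) : LocallyIntegrable α := by
  obtain ⟨B, hB⟩ := hb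
  refine (locallyIntegrable_const B).mono hm.aestronglyMeasurable (Eventually.of_forall fun u => ?_)
  exact (hB u).trans (le_abs_self B)

private theorem F_eq (g α : ℂ → ℂ) : (fun w => ∫ u, g (w - u) * α u) = (α ⋆[ContinuousLinearMap.mul ℝ ℂ, volume] g) := by
  funext w
  rw [convolution_def]
  refine integral_congr_ae (Eventually.of_forall fun u => ?_)
  show g (w - u) * α u = α u * g (w - u)
  rw [mul_comm]

theorem cv_c1 {g α : ℂ → ℂ} (hg : ContDiff ℝ 1 g) (hc : HasCompactSupport g) (hα : LocallyIntegrable α) :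
    ContDiff ℝ 1 (fun w => ∫ u, g (w - u) * α u) := by
  rw [F_eq]
  exact hc.contDiff_convolution_right (n := 1) _ hα hg

theorem cv_fd {g α : ℂ → ℂ} (hg : ContDiff ℝ 1 g) (hc : HasCompactSupport g) (hα : LocallyIntegrable α) (w v : ℂ) :
    fderiv ℝ (fun w => ∫ u, g (w - u) * α u) w v = ∫ u, fderiv ℝ g (w - u) v * α u := by
  have h1 := hc.hasFDerivAt_convolution_right (ContinuousLinearMap.mul ℝ ℂ) hα hg w
  rw [F_eq, h1.fderiv, convolution_precompR_apply _ hα (hc.fderiv ℝ) (hg.continuous_fderiv one_ne_zero),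
    convolution_def]
  refine integral_congr_ae (Eventually.of_forall fun u => ?_)
  show α u * fderiv ℝ g (w - u) v = fderiv ℝ g (w - u) v * α u
  rw [mul_comm]

theorem cv_int {g α : ℂ → ℂ} (hg : Continuous g) (hc : HasCompactSupport g) (hα : LocallyIntegrable α) (w : ℂ) :
    Integrable (fun u => g (w - u) * α u) := by
  have h1 : ConvolutionExistsAt α g w (ContinuousLinearMap.mul ℝ ℂ) volume :=
    hc.convolutionExists_right (ContinuousLinearMap.mul ℝ ℂ) hα hg w
  refine Integrable.congr h1 (Eventually.of_forall fun u => ?_)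
  show α u * g (w - u) = g (w - u) * α u
  rw [mul_comm]

variable {M r : ℝ} {e : ℂ → ℝ} {α β : ℂ → ℂ}

theorem mol_c1 (h : Mol M r e) : ContDiff ℝ 1 (ec e) := Complex.ofRealCLM.contDiff.comp h.c1

theorem mol_cs (h : Mol M r e) : HasCompactSupport (ec e) := by
  refine HasCompactSupport.of_support_subset_isCompact (isCompact_closedBall (0 : ℂ) r) fun v hv => ?_
  rw [mem_closedBall_zero_iff]
  by_contra hcon
  exact hv (by show ((e v : ℝ) : ℂ) = 0; rw [h.sp v (not_le.1 hcon).le, Complex.ofReal_zero])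

theorem mol_fd (h : Mol M r e) (v w : ℂ) : fderiv ℝ (ec e) v w = ((fderiv ℝ e v w : ℝ) : ℂ) := by
  have h1 : HasFDerivAt (ec e) (Complex.ofRealCLM.comp (fderiv ℝ e v)) v :=
    Complex.ofRealCLM.hasFDerivAt.comp v ((h.c1.differentiable one_ne_zero) v).hasFDerivAt
  rw [h1.fderiv]
  rfl

theorem mol_db (h : Mol M r e) (v : ℂ) : ‖db (ec e) v‖ ≤ M / r ^ 3 := by
  have h1 : ∀ w : ℂ, ‖w‖ = 1 → ‖fderiv ℝ (ec e) v w‖ ≤ M / r ^ 3 := by
    intro w hw
    rw [mol_fd h, Complex.norm_real]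
    have h2 := (fderiv ℝ e v).le_opNorm w
    rw [hw, mul_one] at h2
    exact h2.trans (h.fd v)
  unfold db
  rw [norm_mul]
  have h3 : ‖fderiv ℝ (ec e) v 1 + Complex.I * fderiv ℝ (ec e) v Complex.I‖ ≤ M / r ^ 3 + M / r ^ 3 := by
    refine (norm_add_le _ _).trans (add_le_add (h1 1 (by simp)) ?_)
    rw [norm_mul, Complex.norm_I, one_mul]
    exact h1 Complex.I (by simp)
  have h4 : ‖(1 / 2 : ℂ)‖ = 1 / 2 := by simp
  rw [h4]
  linarith

theorem mol_db0 (h : Mol M r e) {v : ℂ} (hv : r ≤ ‖v‖) : db (ec e) v = 0 := by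
  have h1 : fderiv ℝ e v = 0 := by
    refine IsLocalMin.fderiv_eq_zero (Eventually.of_forall fun u => ?_)
    show e v ≤ e u
    rw [h.sp v hv]
    exact h.nn u
  unfold db
  rw [mol_fd h, mol_fd h, h1]
  simp

theorem mol_int (h : Mol M r e) : Integrable e := by
  by_contra hcon
  have := h.one
  rw [integral_undef hcon] at this
  exact zero_ne_one this

theorem mol_one (h : Mol M r e) (w : ℂ) : ∫ u, (e (w - u) : ℂ) = 1 := by
  have h1 := integral_sub_left_eq_self (μ := (volume : Measure ℂ)) (fun u => (e u : ℂ)) w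
  have h2 : ∫ u, ((e u : ℝ) : ℂ) = ((∫ u, e u : ℝ) : ℂ) := integral_ofReal
  rw [h1, h2, h.one, Complex.ofReal_one]

theorem am_c1 (h : Mol M r e) (ha : Measurable α) (hb : Measurable β) (hA : ∃ B : ℝ, ∀ u, ‖α u‖ ≤ B)
    (hB : ∃ B : ℝ, ∀ u, ‖β u‖ ≤ B) : ContDiff ℝ 1 (Am e α β) := by
  have h1 := cv_c1 (mol_c1 h) (mol_cs h) (li_bd ha hA)
  have h2 := cv_c1 (mol_c1 h) (mol_cs h) (li_bd hb hB)
  exact h1.add (contDiff_id.mul h2)

theorem am_db (h : Mol M r e) (ha : Measurable α) (hb : Measurable β) (hA : ∃ B : ℝ, ∀ u, ‖α u‖ ≤ B)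
    (hB : ∃ B : ℝ, ∀ u, ‖β u‖ ≤ B) (w : ℂ) :
    Integrable (fun u => db (ec e) (w - u) * (α u + β u * w)) ∧
    db (Am e α β) w = ∫ u, db (ec e) (w - u) * (α u + β u * w) := by
  have la := li_bd ha hA
  have lb := li_bd hb hB
  have c1 := mol_c1 h
  have cs := mol_cs h
  have hcf : ∀ v : ℂ, Continuous fun u => fderiv ℝ (ec e) u v := fun v =>
    (c1.continuous_fderiv one_ne_zero).clm_apply continuous_const
  have hcs : ∀ v : ℂ, HasCompactSupport fun u => fderiv ℝ (ec e) u v := fun v =>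
    (cs.fderiv ℝ).comp_left (g := fun T : ℂ →L[ℝ] ℂ => T v) (by simp)
  have i1 : ∀ v, Integrable fun u => fderiv ℝ (ec e) (w - u) v * α u := fun v => cv_int (hcf v) (hcs v) la w
  have i2 : ∀ v, Integrable fun u => fderiv ℝ (ec e) (w - u) v * β u := fun v => cv_int (hcf v) (hcs v) lb w
  have d1 : HasFDerivAt (fun w => ∫ u, ec e (w - u) * α u) (fderiv ℝ (fun w => ∫ u, ec e (w - u) * α u) w) w :=
    (((cv_c1 c1 cs la).differentiable one_ne_zero) w).hasFDerivAt
  have d2 : HasFDerivAt (fun w => ∫ u, ec e (w - u) * β u) (fderiv ℝ (fun w => ∫ u, ec e (w - u) * β u) w) w :=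
    (((cv_c1 c1 cs lb).differentiable one_ne_zero) w).hasFDerivAt
  have d3 := d1.add ((hasFDerivAt_id w).mul d2)
  have e1 : ∀ v, fderiv ℝ (Am e α β) w v = (∫ u, fderiv ℝ (ec e) (w - u) v * α u) +
      (w * (∫ u, fderiv ℝ (ec e) (w - u) v * β u) + (∫ u, ec e (w - u) * β u) * v) := by
    intro v
    have h1 : HasFDerivAt (Am e α β) _ w := d3
    rw [h1.fderiv]
    show fderiv ℝ (fun w => ∫ u, ec e (w - u) * α u) w v + (w * fderiv ℝ (fun w => ∫ u, ec e (w - u) * β u) w v +
      (∫ u, ec e (w - u) * β u) * v) = _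
    rw [cv_fd c1 cs la, cv_fd c1 cs lb]
  have e2 : ∀ u, db (ec e) (w - u) * (α u + β u * w) = (1 / 2 : ℂ) * ((fderiv ℝ (ec e) (w - u) 1 * α u +
      w * (fderiv ℝ (ec e) (w - u) 1 * β u)) + Complex.I * (fderiv ℝ (ec e) (w - u) Complex.I * α u +
      w * (fderiv ℝ (ec e) (w - u) Complex.I * β u))) := by
    intro u
    unfold db
    ring
  have j1 : ∀ v, Integrable fun u => fderiv ℝ (ec e) (w - u) v * α u + w * (fderiv ℝ (ec e) (w - u) v * β u) :=
    fun v => (i1 v).add ((i2 v).const_mul w)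
  have j2 : Integrable fun u => Complex.I * (fderiv ℝ (ec e) (w - u) Complex.I * α u +
      w * (fderiv ℝ (ec e) (w - u) Complex.I * β u)) := (j1 _).const_mul _
  refine ⟨?_, ?_⟩
  · simp only [e2]
    exact ((j1 1).add j2).const_mul _
  · simp only [e2]
    rw [integral_const_mul, integral_add (j1 1) j2, integral_const_mul, integral_add (i1 1) ((i2 1).const_mul w),
      integral_add (i1 Complex.I) ((i2 Complex.I).const_mul w), integral_const_mul, integral_const_mul]
    show (1 / 2 : ℂ) * (fderiv ℝ (Am e α β) w 1 + Complex.I * fderiv ℝ (Am e α β) w Complex.I) = _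
    rw [e1, e1]
    have hI : Complex.I * Complex.I = -1 := Complex.I_mul_I
    linear_combination (1 / 2 : ℂ) * (∫ u, ec e (w - u) * β u) * hI

private theorem db_zero_int (h : Mol M r e) (w : ℂ) :
    Integrable (fun u => db (ec e) (w - u)) ∧ ∫ u, db (ec e) (w - u) = 0 := by
  obtain ⟨h1, h2⟩ := am_db h (α := fun _ => 1) (β := fun _ => 0) measurable_const measurable_const
    ⟨1, fun u => by simp⟩ ⟨0, fun u => by simp⟩ w
  have h3 : Am e (fun _ => 1) (fun _ => 0) = fun _ => 1 := by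
    funext w
    unfold Am
    simp only [mul_one, mul_zero, integral_zero, add_zero]
    exact mol_one h w
  simp only [zero_mul, add_zero, mul_one] at h1 h2
  refine ⟨h1, ?_⟩
  rw [← h2, h3]
  unfold db
  simp

theorem am_bd (h : Mol M r e) (hr : 0 < r) (hM : 0 ≤ M) (ha : Measurable α) (hb : Measurable β) (hA : ∃ B : ℝ, ∀ u, ‖α u‖ ≤ B)
    (hB : ∃ B : ℝ, ∀ u, ‖β u‖ ≤ B) {w c : ℂ} {B : ℝ} (hc : ∀ u, ‖u - w‖ ≤ r → ‖α u + β u * w - c‖ ≤ B) :
    ‖db (Am e α β) w‖ ≤ Real.pi * M * B / r := by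
  obtain ⟨h1, h2⟩ := am_db h ha hb hA hB w
  obtain ⟨h3, h4⟩ := db_zero_int h w
  have hB0 : 0 ≤ B := (norm_nonneg _).trans (hc w (by simpa using hr.le))
  have e1 : db (Am e α β) w = ∫ u, db (ec e) (w - u) * (α u + β u * w - c) := by
    have e2 : ∀ u, db (ec e) (w - u) * (α u + β u * w - c) =
        db (ec e) (w - u) * (α u + β u * w) - c * db (ec e) (w - u) := fun u => by ring
    simp only [e2]
    rw [integral_sub h1 (h3.const_mul c), integral_const_mul, h4, mul_zero, sub_zero, h2]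
  have e3 : ∫ u, db (ec e) (w - u) * (α u + β u * w - c) =
      ∫ u in closedBall w r, db (ec e) (w - u) * (α u + β u * w - c) := by
    rw [setIntegral_eq_integral_of_forall_compl_eq_zero]
    intro u hu
    rw [mem_closedBall, dist_eq_norm, not_le] at hu
    rw [mol_db0 h (by rw [norm_sub_rev]; exact hu.le), zero_mul]
  rw [e1, e3]
  have h5 := norm_setIntegral_le_of_norm_le_const (μ := (volume : Measure ℂ)) (s := closedBall w r)
    (f := fun u => db (ec e) (w - u) * (α u + β u * w - c)) (C := M / r ^ 3 * B)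
    (isCompact_closedBall w r).measure_lt_top fun u hu => by
      rw [mem_closedBall, dist_eq_norm] at hu
      rw [norm_mul]
      exact mul_le_mul (mol_db h _) (hc u hu) (norm_nonneg _) (by positivity)
  have h6 : volume.real (closedBall w r) = Real.pi * r ^ 2 := by
    rw [Measure.real, Complex.volume_closedBall]
    simp only [ENNReal.toReal_mul, ENNReal.toReal_pow, ENNReal.toReal_ofReal hr.le, ENNReal.coe_toReal, NNReal.coe_real_pi]
    ring
  rw [h6] at h5
  refine h5.trans (le_of_eq ?_)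
  field_simp

theorem am_ap (h : Mol M r e) (ha : Measurable α) (hb : Measurable β) (hA : ∃ B : ℝ, ∀ u, ‖α u‖ ≤ B)
    (hB : ∃ B : ℝ, ∀ u, ‖β u‖ ≤ B) {w c : ℂ} {B : ℝ} (hc : ∀ u, ‖u - w‖ ≤ r → ‖α u + β u * w - c‖ ≤ B) :
    ‖Am e α β w - c‖ ≤ B := by
  have i1 : Integrable fun u => (e (w - u) : ℂ) * α u := cv_int (mol_c1 h).continuous (mol_cs h) (li_bd ha hA) w
  have i2 : Integrable fun u => (e (w - u) : ℂ) * β u := cv_int (mol_c1 h).continuous (mol_cs h) (li_bd hb hB) w
  have i3 : Integrable fun u => e (w - u) := (mol_int h).comp_sub_left w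
  have i4 : Integrable fun u => (e (w - u) : ℂ) := i3.ofReal
  have e1 : Am e α β w - c = ∫ u, (e (w - u) : ℂ) * (α u + β u * w - c) := by
    have e2 : ∀ u, (e (w - u) : ℂ) * (α u + β u * w - c) =
        ((e (w - u) : ℂ) * α u + w * ((e (w - u) : ℂ) * β u)) - c * (e (w - u) : ℂ) := fun u => by ring
    have i5 : Integrable fun u => (e (w - u) : ℂ) * α u + w * ((e (w - u) : ℂ) * β u) := i1.add (i2.const_mul w)
    simp only [e2]
    rw [integral_sub i5 (i4.const_mul c), integral_add i1 (i2.const_mul w), integral_const_mul,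
      integral_const_mul, mol_one h, mul_one]
    rfl
  rw [e1]
  have h1 : ∫ u, e (w - u) * B = B := by
    rw [integral_mul_const, integral_sub_left_eq_self (μ := (volume : Measure ℂ)) (fun u => e u) w, h.one, one_mul]
  rw [← h1]
  refine norm_integral_le_of_norm_le (i3.mul_const B) (Eventually.of_forall fun u => ?_)
  rw [norm_mul, Complex.norm_real, Real.norm_of_nonneg (h.nn _)]
  by_cases hu : ‖u - w‖ ≤ r
  · exact mul_le_mul_of_nonneg_left (hc u hu) (h.nn _)
  · rw [h.sp (w - u) (by rw [norm_sub_rev]; exact (not_le.1 hu).le), zero_mul, zero_mul]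

end Pool.Agent.H18.WE
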