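import Mathlib

/-!
# (WE) the velocities extend with bounded dbar: definitions (think 1982, helper31; architect of this folder: helper18)

`TP J V C θ r1`: `J` compact, uniformly perfect up to the scale `r1`, `V` bounded on `J` with the complex three point estimate.
`Mol M r e`: a mollifier of radius `r`. `Gd J V K x r α β`: the affine map `α + β w` is near `V` at `x` on the scale `r`.
`Fd J V K r α β`: a field of affine maps of the scale `r`, measurable.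
-/

set_option autoImplicit false

open Filter Topology Metric Set MeasureTheory

namespace Pool.Agent.H18.WE

/-- the Wirtinger derivative -/
noncomputable def db (F : ℂ → ℂ) (z : ℂ) : ℂ := (1 / 2 : ℂ) * (fderiv ℝ F z 1 + Complex.I * fderiv ℝ F z Complex.I)

/-- three point estimate on a uniformly perfect compact set -/
structure TP (J : Set ℂ) (V : ℂ → ℂ) (C θ r1 : ℝ) : Prop where
  Jc : IsCompact J
  hC : 0 ≤ C
  hθ : 0 < θ
  hr1 : 0 < r1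
  bd : ∀ x ∈ J, ‖V x‖ ≤ C
  tri : ∀ x ∈ J, ∀ y ∈ J, ∀ z ∈ J, x ≠ y → z ≠ y →
    ‖V x - V y - (x - y) / (z - y) * (V z - V y)‖ ≤ C * ‖x - y‖ * (1 + |Real.log (‖z - y‖ / ‖x - y‖)|)
  th : ∀ y ∈ J, ∀ ρ : ℝ, 0 < ρ → ρ ≤ r1 → ∃ w ∈ J, θ * ρ ≤ ‖w - y‖ ∧ ‖w - y‖ ≤ ρ / 8

/-- a mollifier of radius `r` -/
structure Mol (M r : ℝ) (e : ℂ → ℝ) : Prop where
  c1 : ContDiff ℝ 1 e
  nn : ∀ v, 0 ≤ e v
  sp : ∀ v, r ≤ ‖v‖ → e v = 0
  one : ∫ v, e v = 1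
  fd : ∀ v, ‖fderiv ℝ e v‖ ≤ M / r ^ 3

/-- the affine map `α + β w` is near `V` at `x` on the scale `r` -/
def Gd (J : Set ℂ) (V : ℂ → ℂ) (K : ℝ) (x : ℂ) (r : ℝ) (α β : ℂ) : Prop :=
  ∀ y ∈ J, ‖y - x‖ ≤ 4 * r → ‖V y - (α + β * y)‖ ≤ K * r

/-- a field of affine maps -/
structure Fd (J : Set ℂ) (V : ℂ → ℂ) (K r : ℝ) (α β : ℂ → ℂ) : Prop where
  ma : Measurable α
  mb : Measurable β
  ba : ∃ B : ℝ, ∀ u, ‖α u‖ ≤ B
  bb : ∃ B : ℝ, ∀ u, ‖β u‖ ≤ B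
  gd : ∀ x ∈ J, ∀ u, ‖u - x‖ ≤ r → Gd J V K x r (α u) (β u)

/-- the mollified field -/
noncomputable def Am (e : ℂ → ℝ) (α β : ℂ → ℂ) (w : ℂ) : ℂ := (∫ u, (e (w - u) : ℂ) * α u) + w * ∫ u, (e (w - u) : ℂ) * β u

end Pool.Agent.H18.WE
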