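import Pool.Agent.H18.WE.Lev

/-!
# (WE) the smooth approximations with bounded dbar
-/

set_option autoImplicit false

open Filter Topology Metric Set MeasureTheory

namespace Pool.Agent.H18.WE

theorem db_add {F G : ℂ → ℂ} {w : ℂ} (hF : DifferentiableAt ℝ F w) (hG : DifferentiableAt ℝ G w) :
    db (fun u => F u + G u) w = db F w + db G w := by
  have h1 : HasFDerivAt (fun u => F u + G u) (fderiv ℝ F w + fderiv ℝ G w) w := hF.hasFDerivAt.add hG.hasFDerivAt
  unfold db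
  rw [h1.fderiv]
  show (1 / 2 : ℂ) * ((fderiv ℝ F w 1 + fderiv ℝ G w 1) +
    Complex.I * (fderiv ℝ F w Complex.I + fderiv ℝ G w Complex.I)) = _
  ring

theorem db_sub {F G : ℂ → ℂ} {w : ℂ} (hF : DifferentiableAt ℝ F w) (hG : DifferentiableAt ℝ G w) :
    db (fun u => F u - G u) w = db F w - db G w := by
  have h1 : HasFDerivAt (fun u => F u - G u) (fderiv ℝ F w - fderiv ℝ G w) w := hF.hasFDerivAt.sub hG.hasFDerivAt
  unfold db
  rw [h1.fderiv]
  show (1 / 2 : ℂ) * ((fderiv ℝ F w 1 - fderiv ℝ G w 1) +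
    Complex.I * (fderiv ℝ F w Complex.I - fderiv ℝ G w Complex.I)) = _
  ring

theorem db_mul {F G : ℂ → ℂ} {w : ℂ} (hF : DifferentiableAt ℝ F w) (hG : DifferentiableAt ℝ G w) :
    db (fun u => F u * G u) w = db F w * G w + F w * db G w := by
  have h1 : HasFDerivAt (fun u => F u * G u) (F w • fderiv ℝ G w + G w • fderiv ℝ F w) w :=
    hF.hasFDerivAt.mul hG.hasFDerivAt
  unfold db
  rw [h1.fderiv]
  show (1 / 2 : ℂ) * ((F w * fderiv ℝ G w 1 + G w * fderiv ℝ F w 1) +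
    Complex.I * (F w * fderiv ℝ G w Complex.I + G w * fderiv ℝ F w Complex.I)) = _
  ring

/-- the approximations -/
noncomputable def gn (χ A : ℕ → ℂ → ℂ) : ℕ → ℂ → ℂ
  | 0 => fun w => χ 0 w * A 0 w
  | n + 1 => fun w => gn χ A n w + χ (n + 1) w * (A (n + 1) w - A n w)

variable {χ A : ℕ → ℂ → ℂ}

theorem gn_c1 (hχ : ∀ n, ContDiff ℝ 1 (χ n)) (hA : ∀ n, ContDiff ℝ 1 (A n)) (n : ℕ) : ContDiff ℝ 1 (gn χ A n) := by
  induction n with
  | zero => exact (hχ 0).mul (hA 0)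
  | succ n ih => exact ih.add ((hχ (n + 1)).mul ((hA (n + 1)).sub (hA n)))

theorem gn_zero {w : ℂ} (h : ∀ n, χ n w = 0) (n : ℕ) : gn χ A n w = 0 := by
  induction n with
  | zero => show χ 0 w * A 0 w = 0; rw [h, zero_mul]
  | succ n ih => show gn χ A n w + χ (n + 1) w * (A (n + 1) w - A n w) = 0; rw [ih, h, zero_mul, add_zero]

theorem gn_one {w : ℂ} (h : ∀ n, χ n w = 1) (n : ℕ) : gn χ A n w = A n w := by
  induction n with
  | zero => show χ 0 w * A 0 w = _; rw [h, one_mul]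
  | succ n ih => show gn χ A n w + χ (n + 1) w * (A (n + 1) w - A n w) = _; rw [ih, h]; ring

theorem gn_db (hχ : ∀ n, ContDiff ℝ 1 (χ n)) (hA : ∀ n, ContDiff ℝ 1 (A n)) (w : ℂ) (n : ℕ) : db (gn χ A n) w =
    (db (χ 0) w * A 0 w + ∑ k ∈ Finset.range n, db (χ (k + 1)) w * (A (k + 1) w - A k w)) +
    ((∑ k ∈ Finset.range n, (χ k w - χ (k + 1) w) * db (A k) w) + χ n w * db (A n) w) := by
  have dχ : ∀ n, DifferentiableAt ℝ (χ n) w := fun n => ((hχ n).differentiable one_ne_zero) w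
  have dA : ∀ n, DifferentiableAt ℝ (A n) w := fun n => ((hA n).differentiable one_ne_zero) w
  induction n with
  | zero =>
    rw [Finset.sum_range_zero, Finset.sum_range_zero, add_zero, zero_add]
    exact db_mul (dχ 0) (dA 0)
  | succ n ih =>
    have h1 : db (gn χ A (n + 1)) w = db (gn χ A n) w + db (fun u => χ (n + 1) u * (A (n + 1) u - A n u)) w :=
      db_add (((gn_c1 hχ hA n).differentiable one_ne_zero) w) ((dχ _).mul ((dA _).sub (dA _)))
    have h2 : db (fun u => χ (n + 1) u * (A (n + 1) u - A n u)) w =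
        db (χ (n + 1)) w * (A (n + 1) w - A n w) + χ (n + 1) w * db (fun u => A (n + 1) u - A n u) w :=
      db_mul (dχ _) ((dA _).sub (dA _))
    rw [h1, h2, db_sub (dA _) (dA _), ih, Finset.sum_range_succ, Finset.sum_range_succ]
    ring

/-- the abstract bound -/
theorem gn_bd (hχ : ∀ n, ContDiff ℝ 1 (χ n)) (hA : ∀ n, ContDiff ℝ 1 (A n)) {w : ℂ} {c : ℕ → ℝ} (hc : ∀ n, χ n w = c n)
    (hc0 : ∀ n, 0 ≤ c n) (hc1 : c 0 ≤ 1) (hcm : ∀ n, c (n + 1) ≤ c n) {B1 B2 B3 : ℝ} (hB2 : 0 ≤ B2) (hB3 : 0 ≤ B3)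
    (h1 : ‖db (χ 0) w * A 0 w‖ ≤ B1) (h2 : ∀ n, ‖db (χ (n + 1)) w * (A (n + 1) w - A n w)‖ ≤ B2)
    (h2' : ∀ k l, k < l → db (χ (k + 1)) w * (A (k + 1) w - A k w) = 0 ∨ db (χ (l + 1)) w * (A (l + 1) w - A l w) = 0)
    (h3 : ∀ n, c n ≠ 0 → ‖db (A n) w‖ ≤ B3) (n : ℕ) : ‖db (gn χ A n) w‖ ≤ B1 + B2 + B3 := by
  rw [gn_db hχ hA]
  have s1 : ‖∑ k ∈ Finset.range n, db (χ (k + 1)) w * (A (k + 1) w - A k w)‖ ≤ B2 := by
    by_cases hk : ∃ k ∈ Finset.range n, db (χ (k + 1)) w * (A (k + 1) w - A k w) ≠ 0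
    · obtain ⟨k, hkn, hk⟩ := hk
      rw [Finset.sum_eq_single k]
      · exact h2 k
      · intro l _ hlk
        rcases lt_or_gt_of_ne hlk with h | h
        · exact (h2' l k h).resolve_right hk
        · exact (h2' k l h).resolve_left hk
      · intro h
        exact absurd hkn h
    · push Not at hk
      rw [Finset.sum_eq_zero hk, norm_zero]
      exact hB2
  have b3 : ∀ k, ∀ t : ℝ, 0 ≤ t → t ≤ c k → ‖(t : ℂ) * db (A k) w‖ ≤ t * B3 := by
    intro k t ht htc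
    rw [norm_mul, Complex.norm_real, Real.norm_of_nonneg ht]
    by_cases h : c k = 0
    · have : t = 0 := le_antisymm (htc.trans h.le) ht
      rw [this, zero_mul, zero_mul]
    · exact mul_le_mul_of_nonneg_left (h3 k h) ht
  have s2 : ‖(∑ k ∈ Finset.range n, (χ k w - χ (k + 1) w) * db (A k) w) + χ n w * db (A n) w‖ ≤ B3 := by
    have e1 : ∀ k, (χ k w - χ (k + 1) w) * db (A k) w = ((c k - c (k + 1) : ℝ) : ℂ) * db (A k) w := by
      intro k
      rw [hc, hc, Complex.ofReal_sub]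
    simp only [e1]
    rw [hc n]
    refine (norm_add_le _ _).trans ?_
    have e2 : ‖∑ k ∈ Finset.range n, ((c k - c (k + 1) : ℝ) : ℂ) * db (A k) w‖ ≤ (c 0 - c n) * B3 := by
      rw [← Finset.sum_range_sub' c n, Finset.sum_mul]
      exact norm_sum_le_of_le _ fun k _ => b3 k _ (sub_nonneg.2 (hcm k)) (by linarith [hc0 (k + 1)])
    have e3 := b3 n (c n) (hc0 n) le_rfl
    have e4 : (c 0 - c n) * B3 + c n * B3 = c 0 * B3 := by ring
    have e5 : c 0 * B3 ≤ 1 * B3 := mul_le_mul_of_nonneg_right hc1 hB3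
    linarith
  refine (norm_add_le _ _).trans ?_
  have s3 := norm_add_le (db (χ 0) w * A 0 w) (∑ k ∈ Finset.range n, db (χ (k + 1)) w * (A (k + 1) w - A k w))
  linarith

/-- smooth approximations with bounded dbar -/
theorem app {J : Set ℂ} {V : ℂ → ℂ} {C θ r1 r0 : ℝ} (h : TP J V C θ r1) (hJn : J.Nonempty) (hr0 : 0 < r0) :
    ∃ (M : ℝ) (g : ℕ → ℂ → ℂ), 0 < M ∧ (∀ n, ContDiff ℝ 1 (g n)) ∧ (∀ n w, 7 / 8 * r0 < infDist w J → g n w = 0) ∧
      (∀ n w, ‖db (g n) w‖ ≤ M) ∧ ∀ x ∈ J, Tendsto (fun n => g n x) atTop (𝓝 (V x)) := by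
  have hr1 := h.hr1
  have hθ := h.hθ
  obtain ⟨M, hM, hmo⟩ := mol_ex
  obtain ⟨K, hK, hfl⟩ := fld h
  obtain ⟨R, hR⟩ : ∃ R : ℝ, R = min r1 r0 := ⟨_, rfl⟩
  have hR0 : 0 < R := hR ▸ lt_min hr1 hr0
  have hRr0 : R ≤ r0 := hR ▸ min_le_right _ _
  have hRr1 : R ≤ r1 := hR ▸ min_le_left _ _
  obtain ⟨ρ, hρ⟩ : ∃ ρ : ℕ → ℝ, ρ = fun n => R / 2 ^ n := ⟨_, rfl⟩
  have hρ0 : ρ 0 = R := by rw [hρ]; simp
  have hρs : ∀ n, ρ n = 2 * ρ (n + 1) := by
    intro n
    rw [hρ]
    show R / 2 ^ n = 2 * (R / 2 ^ (n + 1))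
    rw [pow_succ]
    field_simp
  have hρp : ∀ n, 0 < ρ n := fun n => by
    rw [hρ]
    positivity
  have hρa : Antitone ρ := antitone_nat_of_succ_le fun n => by
    have := hρs n
    have := hρp (n + 1)
    linarith
  have hρR : ∀ n, ρ n ≤ R := fun n => (hρa (Nat.zero_le n)).trans hρ0.le
  have hex : ∀ n, ∃ (e : ℂ → ℝ) (α β : ℂ → ℂ), Lv J V K M (ρ n) e α β := by
    intro n
    obtain ⟨e, he⟩ := hmo (ρ n / 8) (by have := hρp n; positivity)
    obtain ⟨α, β, hf⟩ := hfl (ρ n) (hρp n) ((hρR n).trans hRr1)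
    exact ⟨e, α, β, hρp n, he, hf⟩
  choose e α β hL using hex
  obtain ⟨χ, hχ⟩ : ∃ χ : ℕ → ℂ → ℂ, χ = fun n => Ch J (ρ n) (e n) := ⟨_, rfl⟩
  obtain ⟨A, hA⟩ : ∃ A : ℕ → ℂ → ℂ, A = fun n => Am (e n) (α n) (β n) := ⟨_, rfl⟩
  have cχ : ∀ n, ContDiff ℝ 1 (χ n) := fun n => by rw [hχ]; exact ch_c1 (hL n).mo
  have cA : ∀ n, ContDiff ℝ 1 (A n) := fun n => by rw [hA]; exact a_c1 (hL n)
  have hpt : ∀ w, ∃ x ∈ J, infDist w J = ‖w - x‖ := by
    intro w
    obtain ⟨x, hx, h1⟩ := h.Jc.exists_infDist_eq_dist hJn w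
    exact ⟨x, hx, by rw [h1, dist_eq_norm]⟩
  obtain ⟨B3, hB3⟩ : ∃ B3 : ℝ, B3 = 8 * Real.pi * M * (K * (3 + 12 / θ)) := ⟨_, rfl⟩
  have hB30 : 0 ≤ B3 := by rw [hB3]; positivity
  have hcpt : IsCompact {w : ℂ | infDist w J ≤ 7 / 8 * R} := by
    refine Metric.isCompact_of_isClosed_isBounded (isClosed_le (continuous_infDist_pt J) continuous_const) ?_
    refine (h.Jc.isBounded.cthickening (δ := 7 / 8 * R)).subset fun w hw => ?_
    obtain ⟨x, hx, h1⟩ := hpt w
    refine mem_cthickening_of_dist_le w x _ J hx ?_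
    rw [dist_eq_norm, ← h1]
    exact hw
  obtain ⟨B0, hB0⟩ := hcpt.exists_bound_of_continuousOn (cA 0).continuous.continuousOn
  refine ⟨8 * Real.pi * M / R * |B0| + 2 * B3 + B3 + 1, gn χ A, by positivity, gn_c1 cχ cA, ?_, ?_, ?_⟩
  · intro n w hw
    refine gn_zero (fun k => ?_) n
    rw [hχ]
    refine ch_zero (hL k).mo ?_
    have := hρR k
    linarith
  · intro n w
    obtain ⟨x, hx, hd⟩ := hpt w
    refine (gn_bd (c := fun n => Cr J (ρ n) (e n) w) (B1 := 8 * Real.pi * M / R * |B0|) (B2 := 2 * B3) (B3 := B3)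
      cχ cA ?_ ?_ ?_ ?_ (by positivity) hB30 ?_ ?_ ?_ ?_ n).trans (by linarith)
    · intro n
      rw [hχ]
      exact ch_cr (hL n).mo
    · intro n
      exact cr_nn (hL n).mo
    · exact cr_le (hL 0).mo
    · intro n
      rcases le_or_gt (infDist w J) (7 / 8 * ρ (n + 1)) with h1 | h1
      · show Cr J (ρ (n + 1)) (e (n + 1)) w ≤ Cr J (ρ n) (e n) w
        rw [cr_one (hL n).mo (by have := hρs n; have := hρp n; linarith)]
        exact cr_le (hL _).mo
      · show Cr J (ρ (n + 1)) (e (n + 1)) w ≤ Cr J (ρ n) (e n) w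
        rw [cr_zero (hL _).mo h1]
        exact cr_nn (hL n).mo
    · rw [norm_mul]
      rcases le_or_gt (infDist w J) (7 / 8 * R) with h1 | h1
      · refine mul_le_mul ?_ ((hB0 w h1).trans (le_abs_self _)) (norm_nonneg _) (by positivity)
        rw [hχ]
        exact (ch_db (w := w) (hL 0).mo (hρp 0) hM.le (J := J)).trans (le_of_eq (by rw [hρ0]))
      · have h2 : db (χ 0) w = 0 := by
          rw [hχ]
          exact ch_db0 (hL 0).mo (hρp 0) hM.le (Or.inr (by rw [hρ0]; exact h1))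
        rw [h2, norm_zero, zero_mul]
        positivity
    · intro n
      rw [norm_mul]
      rcases le_or_gt (infDist w J) (7 / 8 * ρ (n + 1)) with h1 | h1
      · have h2 : ‖db (χ (n + 1)) w‖ ≤ 8 * Real.pi * M / ρ (n + 1) := by
          rw [hχ]
          exact ch_db (hL (n + 1)).mo (hρp _) hM.le
        have h3 : ‖A (n + 1) w - A n w‖ ≤ 2 * (K * (3 + 12 / θ)) * ρ (n + 1) := by
          rw [hA]
          have h4 := hL n
          rw [hρs n] at h4
          exact a_cmp h (hL (n + 1)) h4 ((hρR _).trans hRr1) hx (by rw [← hd]; exact h1)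
        have hp := hρp (n + 1)
        refine (mul_le_mul h2 h3 (norm_nonneg _) (by positivity)).trans (le_of_eq ?_)
        rw [hB3]
        field_simp
      · have h2 : db (χ (n + 1)) w = 0 := by
          rw [hχ]
          exact ch_db0 (hL (n + 1)).mo (hρp _) hM.le (Or.inr h1)
        rw [h2, norm_zero, zero_mul]
        positivity
    · intro k l hkl
      have hz : ∀ m, infDist w J ≤ 5 / 8 * ρ (m + 1) ∨ 7 / 8 * ρ (m + 1) < infDist w J →
          db (χ (m + 1)) w * (A (m + 1) w - A m w) = 0 := by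
        intro m hm
        have h2 : db (χ (m + 1)) w = 0 := by
          rw [hχ]
          exact ch_db0 (hL (m + 1)).mo (hρp _) hM.le hm
        rw [h2, zero_mul]
      rcases le_or_gt (infDist w J) (7 / 8 * ρ (l + 1)) with h1 | h1
      · left
        refine hz k (Or.inl ?_)
        have h3 : ρ (l + 1) ≤ ρ (k + 1 + 1) := hρa (by omega)
        have h4 := hρs (k + 1)
        have h5 := hρp (k + 1 + 1)
        linarith
      · exact Or.inr (hz l (Or.inr h1))
    · intro n hn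
      rcases le_or_gt (infDist w J) (7 / 8 * ρ n) with h1 | h1
      · rw [hA, hB3]
        exact a_db h (hL n) ((hρR n).trans hRr1) hM.le hx (by rw [← hd]; exact h1)
      · exact absurd (cr_zero (hL n).mo h1) hn
  · intro x hx
    have h1 : ∀ n, gn χ A n x = A n x := by
      refine gn_one fun n => ?_
      rw [hχ]
      refine ch_one (hL n).mo ?_
      rw [infDist_zero_of_mem hx]
      have := hρp n
      positivity
    have h2 : Tendsto (fun n => K * ρ n) atTop (𝓝 0) := by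
      have h3 : Tendsto ρ atTop (𝓝 0) := by
        rw [hρ]
        have h4 : Tendsto (fun n : ℕ => R * (1 / 2 : ℝ) ^ n) atTop (𝓝 (R * 0)) :=
          (tendsto_pow_atTop_nhds_zero_of_lt_one (by norm_num) (by norm_num)).const_mul R
        rw [mul_zero] at h4
        refine h4.congr fun n => ?_
        rw [one_div, inv_pow, div_eq_mul_inv]
      have h5 := h3.const_mul K
      rwa [mul_zero] at h5
    rw [tendsto_iff_norm_sub_tendsto_zero]
    refine squeeze_zero (fun n => norm_nonneg _) (fun n => ?_) h2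
    rw [h1, hA]
    exact a_val (hL n) hx

end Pool.Agent.H18.WE
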