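import Pool.Agent.H18.WE.Defs
import Mathlib.Analysis.Calculus.BumpFunction.Normed
import Mathlib.Analysis.Calculus.BumpFunction.InnerProduct

/-!
# (WE) mollifiers exist with one constant
-/

set_option autoImplicit false

open Filter Topology Metric Set MeasureTheory

namespace Pool.Agent.H18.WE

theorem mol_ex : ∃ M : ℝ, 0 < M ∧ ∀ r : ℝ, 0 < r → ∃ e : ℂ → ℝ, Mol M r e := by
  obtain ⟨φ, hφ⟩ : ∃ φ : ContDiffBump (0 : ℂ), φ.rOut = 1 := ⟨⟨1 / 2, 1, by norm_num, by norm_num⟩, rfl⟩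
  obtain ⟨η, hη⟩ : ∃ η : ℂ → ℝ, η = φ.normed volume := ⟨_, rfl⟩
  have h1 : ContDiff ℝ 1 η := by rw [hη]; exact φ.contDiff_normed
  have h2 : HasCompactSupport η := by rw [hη]; exact φ.hasCompactSupport_normed
  have h3 : ∀ v, 0 ≤ η v := fun v => by rw [hη]; exact φ.nonneg_normed v
  have h4 : ∫ v, η v = 1 := by rw [hη]; exact φ.integral_normed
  have h5 : ∀ v, 1 ≤ ‖v‖ → η v = 0 := by
    intro v hv
    by_contra hcon
    have h6 : v ∈ Function.support (φ.normed volume) := by rw [← hη]; exact hcon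
    rw [φ.support_normed_eq, hφ, mem_ball_zero_iff] at h6
    linarith
  obtain ⟨M, hM⟩ := (h1.continuous_fderiv one_ne_zero).bounded_above_of_compact_support (h2.fderiv ℝ)
  refine ⟨max M 1, lt_max_of_lt_right one_pos, fun r hr => ⟨fun v => (r ^ 2)⁻¹ * η (r⁻¹ • v), ?_, ?_, ?_, ?_, ?_⟩⟩
  · exact contDiff_const.mul (h1.comp (contDiff_const_smul _))
  · intro v
    exact mul_nonneg (by positivity) (h3 _)
  · intro v hv
    have h6 : 1 ≤ ‖r⁻¹ • v‖ := by
      rw [norm_smul, norm_inv, Real.norm_of_nonneg hr.le, ← div_eq_inv_mul, le_div_iff₀ hr, one_mul]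
      exact hv
    show (r ^ 2)⁻¹ * η (r⁻¹ • v) = 0
    rw [h5 _ h6, mul_zero]
  · rw [integral_const_mul, Measure.integral_comp_smul, h4, Complex.finrank_real_complex]
    rw [smul_eq_mul, mul_one, abs_of_nonneg (by positivity)]
    field_simp
  · intro v
    have h6 : HasFDerivAt (fun v => (r ^ 2)⁻¹ * η (r⁻¹ • v))
        ((r ^ 2)⁻¹ • ((fderiv ℝ η (r⁻¹ • v)).comp (r⁻¹ • ContinuousLinearMap.id ℝ ℂ))) v := by
      refine HasFDerivAt.const_mul ?_ _
      exact HasFDerivAt.comp v ((h1.differentiable one_ne_zero) _).hasFDerivAt ((hasFDerivAt_id v).const_smul r⁻¹)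
    rw [h6.fderiv, norm_smul]
    have h7 := (fderiv ℝ η (r⁻¹ • v)).opNorm_comp_le (r⁻¹ • ContinuousLinearMap.id ℝ ℂ)
    have h8 : ‖r⁻¹ • ContinuousLinearMap.id ℝ ℂ‖ ≤ r⁻¹ := by
      rw [norm_smul, norm_inv, Real.norm_of_nonneg hr.le]
      calc r⁻¹ * ‖ContinuousLinearMap.id ℝ ℂ‖ ≤ r⁻¹ * 1 :=
            mul_le_mul_of_nonneg_left ContinuousLinearMap.norm_id_le (by positivity)
        _ = r⁻¹ := mul_one _
    have h9 : ‖(fderiv ℝ η (r⁻¹ • v)).comp (r⁻¹ • ContinuousLinearMap.id ℝ ℂ)‖ ≤ max M 1 * r⁻¹ :=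
      h7.trans (mul_le_mul ((hM _).trans (le_max_left _ _)) h8 (norm_nonneg _) (le_trans zero_le_one (le_max_right _ _)))
    rw [norm_inv, Real.norm_of_nonneg (by positivity)]
    refine (mul_le_mul_of_nonneg_left h9 (by positivity)).trans (le_of_eq ?_)
    field_simp

end Pool.Agent.H18.WE
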