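import Pool.Agent.H18.WE.Cv
import Pool.Agent.H18.WE.Mo
import Pool.Agent.H18.WE.Aff

/-!
# (WE) one level: the mollified field `A` and the cut off function `χ`
-/

set_option autoImplicit false

open Filter Topology Metric Set MeasureTheory

namespace Pool.Agent.H18.WE

/-- one level of the construction -/
structure Lv (J : Set ℂ) (V : ℂ → ℂ) (K M r : ℝ) (e : ℂ → ℝ) (α β : ℂ → ℂ) : Prop where
  hr : 0 < r
  mo : Mol M (r / 8) e
  fd : Fd J V K r α β

/-- the neighbourhood of `J` -/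
def Tn (J : Set ℂ) (r : ℝ) : Set ℂ := {u | infDist u J ≤ 3 / 4 * r}

/-- the cut off function -/
noncomputable def Ch (J : Set ℂ) (r : ℝ) (e : ℂ → ℝ) : ℂ → ℂ := Am e ((Tn J r).indicator fun _ => 1) (fun _ => 0)

/-- the real cut off function -/
noncomputable def Cr (J : Set ℂ) (r : ℝ) (e : ℂ → ℝ) (w : ℂ) : ℝ := ∫ u in Tn J r, e (w - u)

variable {J : Set ℂ} {V : ℂ → ℂ} {C θ r1 K M r r' : ℝ} {e e' : ℂ → ℝ} {α β α' β' : ℂ → ℂ} {w x : ℂ}

theorem tn_meas (J : Set ℂ) (r : ℝ) : MeasurableSet (Tn J r) :=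
  (isClosed_le (continuous_infDist_pt J) continuous_const).measurableSet

private theorem ind_meas : Measurable ((Tn J r).indicator fun _ => (1 : ℂ)) := measurable_const.indicator (tn_meas J r)

private theorem ind_bd : ∃ B : ℝ, ∀ u, ‖(Tn J r).indicator (fun _ => (1 : ℂ)) u‖ ≤ B := by
  refine ⟨1, fun u => ?_⟩
  by_cases hu : u ∈ Tn J r
  · rw [indicator_of_mem hu, norm_one]
  · rw [indicator_of_notMem hu, norm_zero]
    exact zero_le_one

private theorem z_bd : ∃ B : ℝ, ∀ u : ℂ, ‖(fun _ : ℂ => (0 : ℂ)) u‖ ≤ B := ⟨0, fun u => by simp⟩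

theorem ch_c1 (h : Mol M (r / 8) e) : ContDiff ℝ 1 (Ch J r e) := am_c1 h ind_meas measurable_const ind_bd z_bd

private theorem ind1 {r : ℝ} (hd : infDist w J ≤ 5 / 8 * r) {u : ℂ} (hu : ‖u - w‖ ≤ r / 8) :
    (Tn J r).indicator (fun _ => (1 : ℂ)) u = 1 := by
  refine indicator_of_mem ?_ _
  show infDist u J ≤ 3 / 4 * r
  have h1 := infDist_le_infDist_add_dist (s := J) (x := u) (y := w)
  rw [dist_eq_norm] at h1
  linarith

private theorem ind0 {r : ℝ} (hd : 7 / 8 * r < infDist w J) {u : ℂ} (hu : ‖u - w‖ ≤ r / 8) :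
    (Tn J r).indicator (fun _ => (1 : ℂ)) u = 0 := by
  refine indicator_of_notMem ?_ _
  show ¬ infDist u J ≤ 3 / 4 * r
  have h1 := infDist_le_infDist_add_dist (s := J) (x := w) (y := u)
  rw [dist_eq_norm, norm_sub_rev] at h1
  intro h2
  linarith

theorem ch_one (h : Mol M (r / 8) e) (hd : infDist w J ≤ 5 / 8 * r) : Ch J r e w = 1 := by
  have h1 := am_ap (w := w) (c := 1) (B := 0) h ind_meas (measurable_const (a := (0 : ℂ))) (ind_bd (J := J) (r := r)) z_bd
    fun u hu => by rw [ind1 hd hu]; simp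
  exact sub_eq_zero.1 (norm_le_zero_iff.1 h1)

theorem ch_zero (h : Mol M (r / 8) e) (hd : 7 / 8 * r < infDist w J) : Ch J r e w = 0 := by
  have h1 := am_ap (w := w) (c := 0) (B := 0) h ind_meas (measurable_const (a := (0 : ℂ))) (ind_bd (J := J) (r := r)) z_bd
    fun u hu => by rw [ind0 hd hu]; simp
  rw [sub_zero] at h1
  exact norm_le_zero_iff.1 h1

theorem ch_db0 (h : Mol M (r / 8) e) (hr : 0 < r) (hM : 0 ≤ M) (hd : infDist w J ≤ 5 / 8 * r ∨ 7 / 8 * r < infDist w J) :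
    db (Ch J r e) w = 0 := by
  rcases hd with hd | hd
  · have h1 := am_bd (w := w) (c := 1) (B := 0) h (by positivity) hM ind_meas (measurable_const (a := (0 : ℂ)))
      (ind_bd (J := J) (r := r)) z_bd fun u hu => by rw [ind1 hd hu]; simp
    rw [mul_zero, zero_div] at h1
    exact norm_le_zero_iff.1 h1
  · have h1 := am_bd (w := w) (c := 0) (B := 0) h (by positivity) hM ind_meas (measurable_const (a := (0 : ℂ)))
      (ind_bd (J := J) (r := r)) z_bd fun u hu => by rw [ind0 hd hu]; simp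
    rw [mul_zero, zero_div] at h1
    exact norm_le_zero_iff.1 h1

theorem ch_db (h : Mol M (r / 8) e) (hr : 0 < r) (hM : 0 ≤ M) : ‖db (Ch J r e) w‖ ≤ 8 * Real.pi * M / r := by
  have h1 := am_bd (w := w) (c := 0) (B := 1) h (by positivity) hM ind_meas (measurable_const (a := (0 : ℂ)))
    (ind_bd (J := J) (r := r)) z_bd fun u hu => by
      by_cases hu : u ∈ Tn J r
      · rw [indicator_of_mem hu]; simp
      · rw [indicator_of_notMem hu]; simp
  refine h1.trans (le_of_eq ?_)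
  field_simp

theorem ch_cr (h : Mol M (r / 8) e) : Ch J r e w = (Cr J r e w : ℂ) := by
  unfold Ch Am Cr
  simp only [mul_zero, integral_zero, add_zero]
  rw [← integral_indicator (tn_meas J r)]
  have e1 : ((∫ u, (Tn J r).indicator (fun u => e (w - u)) u : ℝ) : ℂ) =
      ∫ u, (((Tn J r).indicator (fun u => e (w - u)) u : ℝ) : ℂ) := integral_ofReal.symm
  rw [e1]
  refine integral_congr_ae (Eventually.of_forall fun u => ?_)
  show ((e (w - u) : ℝ) : ℂ) * (Tn J r).indicator (fun _ => (1 : ℂ)) u = (((Tn J r).indicator (fun u => e (w - u)) u : ℝ) : ℂ)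
  by_cases hu : u ∈ Tn J r
  · rw [indicator_of_mem hu, indicator_of_mem hu, mul_one]
  · rw [indicator_of_notMem hu, indicator_of_notMem hu, mul_zero, Complex.ofReal_zero]

theorem cr_nn (h : Mol M (r / 8) e) : 0 ≤ Cr J r e w := integral_nonneg fun u => h.nn _

theorem cr_le (h : Mol M (r / 8) e) : Cr J r e w ≤ 1 := by
  have h1 : ∫ u, e (w - u) = 1 := by
    rw [integral_sub_left_eq_self (μ := (volume : Measure ℂ)) (fun u => e u) w, h.one]
  rw [← h1]
  exact setIntegral_le_integral ((mol_int h).comp_sub_left w) (Eventually.of_forall fun u => h.nn _)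

theorem cr_one (h : Mol M (r / 8) e) (hd : infDist w J ≤ 5 / 8 * r) : Cr J r e w = 1 := by
  have h1 := ch_one h hd
  rw [ch_cr h] at h1
  exact_mod_cast h1

theorem cr_zero (h : Mol M (r / 8) e) (hd : 7 / 8 * r < infDist w J) : Cr J r e w = 0 := by
  have h1 := ch_zero h hd
  rw [ch_cr h] at h1
  exact_mod_cast h1

theorem a_c1 (h : Lv J V K M r e α β) : ContDiff ℝ 1 (Am e α β) := am_c1 h.mo h.fd.ma h.fd.mb h.fd.ba h.fd.bb

/-- the affine maps near `w` are good at `x` -/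
private theorem gdn (h : Lv J V K M r e α β) (hx : x ∈ J) (hw : ‖w - x‖ ≤ 7 / 8 * r) {u : ℂ} (hu : ‖u - w‖ ≤ r / 8) :
    Gd J V K x r (α u) (β u) := by
  refine h.fd.gd x hx u ?_
  have e1 : u - x = (u - w) + (w - x) := by ring
  rw [e1]
  refine (norm_add_le _ _).trans ?_
  linarith

theorem a_db (hT : TP J V C θ r1) (h : Lv J V K M r e α β) (hrr : r ≤ r1) (hM : 0 ≤ M) (hx : x ∈ J)
    (hw : ‖w - x‖ ≤ 7 / 8 * r) : ‖db (Am e α β) w‖ ≤ 8 * Real.pi * M * (K * (3 + 12 / θ)) := by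
  have hr := h.hr
  have h0 : ‖w - w‖ ≤ r / 8 := by
    rw [sub_self, norm_zero]
    positivity
  have h1 := am_bd (w := w) (c := α w + β w * w) (B := K * (3 + 12 / θ) * r) h.mo (by positivity) hM h.fd.ma h.fd.mb
    h.fd.ba h.fd.bb fun u hu => cmp hT hx hr hrr le_rfl (by linarith) (gdn h hx hw h0) (gdn h hx hw hu) (by linarith)
  refine h1.trans (le_of_eq ?_)
  field_simp

theorem a_cmp (hT : TP J V C θ r1) (h : Lv J V K M r e α β) (h' : Lv J V K M (2 * r) e' α' β') (hrr : r ≤ r1) (hx : x ∈ J)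
    (hw : ‖w - x‖ ≤ 7 / 8 * r) : ‖Am e α β w - Am e' α' β' w‖ ≤ 2 * (K * (3 + 12 / θ)) * r := by
  have hr := h.hr
  have h0 : ‖w - w‖ ≤ r / 8 := by
    rw [sub_self, norm_zero]
    positivity
  have h1 := am_ap (w := w) (c := α w + β w * w) (B := K * (3 + 12 / θ) * r) h.mo h.fd.ma h.fd.mb
    h.fd.ba h.fd.bb fun u hu => cmp hT hx hr hrr le_rfl (by linarith) (gdn h hx hw h0) (gdn h hx hw hu) (by linarith)
  have h2 := am_ap (w := w) (c := α w + β w * w) (B := K * (3 + 12 / θ) * r) h'.mo h'.fd.ma h'.fd.mb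
    h'.fd.ba h'.fd.bb fun u hu => cmp hT hx hr hrr (by linarith) le_rfl (gdn h hx hw h0)
      (gdn h' hx (by linarith) hu) (by linarith)
  have e1 : Am e α β w - Am e' α' β' w = (Am e α β w - (α w + β w * w)) - (Am e' α' β' w - (α w + β w * w)) := by ring
  rw [e1]
  refine (norm_sub_le _ _).trans ?_
  linarith

theorem a_val (h : Lv J V K M r e α β) (hx : x ∈ J) : ‖Am e α β x - V x‖ ≤ K * r := by
  have hr := h.hr
  refine am_ap h.mo h.fd.ma h.fd.mb h.fd.ba h.fd.bb fun u hu => ?_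
  rw [norm_sub_rev]
  refine h.fd.gd x hx u (by linarith) x hx ?_
  rw [sub_self, norm_zero]
  positivity

end Pool.Agent.H18.WE
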