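import Pool.Agent.H18.WE.Defs
import Pool.Agent.H71.Top.Pompeiu
import Pool.Agent.H71.Top.Transform

/-!
# (WE) the pairing of a `C^1` function with compact support (Cauchy-Pompeiu)

PROOF. `pompeiu` (H71/Top/Pompeiu) for `v w = g (w + x i)`, translate: `∫ w, db g w / (w - x i) = -π g (x i)`. Sum over `i` (integrable: `db g` is continuous with compact support,
`(w - x i)⁻¹` is locally integrable: `locallyIntegrable_inv`, H71/Top/Transform), `db g = 0` off `Z`, norm of the integral; `∑ a i / (w - x i)` is integrable on `Z` (bounded set).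
(proved by helper22)
-/

set_option autoImplicit false

open Filter Topology Metric Set MeasureTheory

namespace Pool.Agent.H18.WE

private theorem db_cont {g : ℂ → ℂ} (hg : ContDiff ℝ 1 g) : Continuous (db g) := by
  have hfc : Continuous (fderiv ℝ g) := hg.continuous_fderiv one_ne_zero
  unfold db
  exact continuous_const.mul ((hfc.clm_apply continuous_const).add
    (continuous_const.mul (hfc.clm_apply continuous_const)))

private theorem db_cs {g : ℂ → ℂ} (hc : HasCompactSupport g) : HasCompactSupport (db g) := by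
  refine (hc.fderiv ℝ).mono fun w hw => ?_
  rw [Function.mem_support] at hw ⊢
  intro h
  apply hw
  show (1 / 2 : ℂ) * (fderiv ℝ g w 1 + Complex.I * fderiv ℝ g w Complex.I) = 0
  rw [h]
  simp

private theorem inv_li (x : ℂ) {K : Set ℂ} (hK : IsCompact K) : IntegrableOn (fun w : ℂ => (w - x)⁻¹) K := by
  have h1 : LocallyIntegrable (fun w : ℂ => w⁻¹) := Pool.Agent.H71.Top.locallyIntegrable_inv
  have hK' : IsCompact ((fun w : ℂ => w - x) '' K) := hK.image (continuous_id.sub continuous_const)
  have h2 := h1.integrableOn_isCompact hK'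
  have h3 : MeasurePreserving (fun w : ℂ => w - x) volume volume := measurePreserving_sub_right volume x
  have h4 : MeasurableEmbedding (fun w : ℂ => w - x) := (MeasurableEquiv.subRight x).measurableEmbedding
  have h5 := (h3.integrableOn_comp_preimage h4 (f := fun w : ℂ => w⁻¹) (s := (fun w : ℂ => w - x) '' K)).2 h2
  refine h5.mono_set fun w hw => ?_
  exact mem_image_of_mem _ hw

private theorem int_one {g : ℂ → ℂ} (hg : ContDiff ℝ 1 g) (hc : HasCompactSupport g) (x : ℂ) :
    Integrable (fun w => db g w * (w - x)⁻¹) := by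
  have h1 := db_cont hg
  have h2 := db_cs hc
  have hK : IsCompact (tsupport (db g)) := h2
  have h3 : IntegrableOn (fun w => db g w * (w - x)⁻¹) (tsupport (db g)) :=
    (inv_li x hK).continuousOn_mul h1.continuousOn hK
  refine (integrableOn_iff_integrable_of_support_subset fun w hw => ?_).1 h3
  rw [Function.mem_support] at hw
  by_contra hcon
  exact hw (by rw [image_eq_zero_of_notMem_tsupport hcon, zero_mul])

private theorem pomp {g : ℂ → ℂ} (hg : ContDiff ℝ 1 g) (hc : HasCompactSupport g) (x : ℂ) :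
    ∫ w, db g w * (w - x)⁻¹ = -Real.pi * g x := by
  have h1 : ContDiff ℝ 1 (fun w => g (w + x)) := hg.comp (contDiff_id.add contDiff_const)
  have h2 : HasCompactSupport (fun w => g (w + x)) := hc.comp_homeomorph (Homeomorph.addRight x)
  have h3 := Pool.Agent.H71.Top.pompeiu (fun w => g (w + x)) h1 h2
  simp only [zero_add] at h3
  rw [← h3, ← integral_add_right_eq_self (fun w => db g w * (w - x)⁻¹) x]
  refine integral_congr_ae (Eventually.of_forall fun w => ?_)
  show db g (w + x) * (w + x - x)⁻¹ = Pool.Agent.H71.Top.dbar1 (fun w => g (w + x)) w / w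
  rw [add_sub_cancel_right, div_eq_mul_inv]
  congr 1
  show (1 / 2 : ℂ) * (fderiv ℝ g (w + x) 1 + Complex.I * fderiv ℝ g (w + x) Complex.I) =
    (1 / 2 : ℂ) * (fderiv ℝ (fun w => g (w + x)) w 1 + Complex.I * fderiv ℝ (fun w => g (w + x)) w Complex.I)
  rw [fderiv_comp_add_right]

theorem pair {g : ℂ → ℂ} (hg : ContDiff ℝ 1 g) (hc : HasCompactSupport g) {Z : Set ℂ} (hZ : MeasurableSet Z)
    (hZb : Bornology.IsBounded Z) (hs : ∀ w, w ∉ Z → db g w = 0) {M : ℝ} (hb : ∀ w, ‖db g w‖ ≤ M) (N : ℕ) (a x : ℕ → ℂ) :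
    ‖∑ i ∈ Finset.range N, a i * g (x i)‖ ≤ M * ∫ w in Z, ‖∑ i ∈ Finset.range N, a i / (w - x i)‖ := by
  have hM : 0 ≤ M := (norm_nonneg _).trans (hb 0)
  -- the sum of the kernels is integrable on `Z`
  have hS : IntegrableOn (fun w => ∑ i ∈ Finset.range N, a i / (w - x i)) Z := by
    refine integrable_finset_sum _ fun i _ => ?_
    have h1 : IntegrableOn (fun w : ℂ => (w - x i)⁻¹) Z :=
      (inv_li (x i) hZb.isCompact_closure).mono_set subset_closure
    have h2 := h1.const_mul (a i)
    exact h2
  have hI : Integrable (fun w => db g w * ∑ i ∈ Finset.range N, a i / (w - x i)) := by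
    have h1 : Integrable (fun w => ∑ i ∈ Finset.range N, a i * (db g w * (w - x i)⁻¹)) :=
      integrable_finset_sum _ fun i _ => (int_one hg hc (x i)).const_mul (a i)
    refine h1.congr (Eventually.of_forall fun w => ?_)
    show ∑ i ∈ Finset.range N, a i * (db g w * (w - x i)⁻¹) = db g w * ∑ i ∈ Finset.range N, a i / (w - x i)
    rw [Finset.mul_sum]
    exact Finset.sum_congr rfl fun i _ => by rw [div_eq_mul_inv]; ring
  have key : ∫ w, db g w * ∑ i ∈ Finset.range N, a i / (w - x i) = -Real.pi * ∑ i ∈ Finset.range N, a i * g (x i) := by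
    have h1 : ∫ w, db g w * ∑ i ∈ Finset.range N, a i / (w - x i) =
        ∫ w, ∑ i ∈ Finset.range N, a i * (db g w * (w - x i)⁻¹) := by
      refine integral_congr_ae (Eventually.of_forall fun w => ?_)
      show db g w * ∑ i ∈ Finset.range N, a i / (w - x i) = ∑ i ∈ Finset.range N, a i * (db g w * (w - x i)⁻¹)
      rw [Finset.mul_sum]
      exact Finset.sum_congr rfl fun i _ => by rw [div_eq_mul_inv]; ring
    rw [h1, integral_finset_sum _ fun i _ => (int_one hg hc (x i)).const_mul (a i), Finset.mul_sum]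
    refine Finset.sum_congr rfl fun i _ => ?_
    rw [integral_const_mul, pomp hg hc]
    ring
  have hpi : ‖∑ i ∈ Finset.range N, a i * g (x i)‖ ≤ ‖∫ w, db g w * ∑ i ∈ Finset.range N, a i / (w - x i)‖ := by
    rw [key, norm_mul, norm_neg, Complex.norm_real, Real.norm_eq_abs, abs_of_pos Real.pi_pos]
    have h2 : (1 : ℝ) ≤ Real.pi := by linarith [Real.pi_gt_three]
    nlinarith [norm_nonneg (∑ i ∈ Finset.range N, a i * g (x i))]
  refine hpi.trans ?_
  have h3 : ∫ w, db g w * ∑ i ∈ Finset.range N, a i / (w - x i) =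
      ∫ w in Z, db g w * ∑ i ∈ Finset.range N, a i / (w - x i) := by
    rw [← integral_indicator hZ]
    refine integral_congr_ae (Eventually.of_forall fun w => ?_)
    show db g w * ∑ i ∈ Finset.range N, a i / (w - x i) =
      Z.indicator (fun w => db g w * ∑ i ∈ Finset.range N, a i / (w - x i)) w
    by_cases hw : w ∈ Z
    · rw [indicator_of_mem hw]
    · rw [indicator_of_notMem hw, hs w hw, zero_mul]
  rw [h3]
  calc ‖∫ w in Z, db g w * ∑ i ∈ Finset.range N, a i / (w - x i)‖
      ≤ ∫ w in Z, ‖db g w * ∑ i ∈ Finset.range N, a i / (w - x i)‖ := norm_integral_le_integral_norm _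
    _ ≤ ∫ w in Z, M * ‖∑ i ∈ Finset.range N, a i / (w - x i)‖ := by
        refine integral_mono hI.integrableOn.norm (hS.norm.const_mul M) fun w => ?_
        show ‖db g w * ∑ i ∈ Finset.range N, a i / (w - x i)‖ ≤ M * ‖∑ i ∈ Finset.range N, a i / (w - x i)‖
        rw [norm_mul]
        exact mul_le_mul_of_nonneg_right (hb w) (norm_nonneg _)
    _ = M * ∫ w in Z, ‖∑ i ∈ Finset.range N, a i / (w - x i)‖ := integral_const_mul _ _

end Pool.Agent.H18.WE
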