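import Pool.Agent.H18.WE.Gn
import Pool.Agent.H18.WE.Par

/-!
# (WE) the pairing of the velocities is bounded by the `L^1` norm of the sum of the Cauchy kernels
-/

set_option autoImplicit false

open Filter Topology Metric Set MeasureTheory

namespace Pool.Agent.H18.WE

theorem we {J : Set ℂ} {V : ℂ → ℂ} {C θ r1 r0 : ℝ} (h : TP J V C θ r1) (hr0 : 0 < r0) :
    ∃ M : ℝ, 0 < M ∧ ∀ (N : ℕ) (a x : ℕ → ℂ), (∀ i < N, x i ∈ J) →
      ‖∑ i ∈ Finset.range N, a i * V (x i)‖ ≤ M * ∫ w in thickening r0 J, ‖∑ i ∈ Finset.range N, a i / (w - x i)‖ := by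
  rcases J.eq_empty_or_nonempty with hJ | hJ
  · refine ⟨1, one_pos, fun N a x hx => ?_⟩
    obtain rfl : N = 0 := by
      by_contra hN
      have := hx 0 (Nat.pos_of_ne_zero hN)
      rw [hJ] at this
      exact this
    simp
  · obtain ⟨M, g, hM, hg, hz, hb, hl⟩ := app h hJ hr0
    refine ⟨M, hM, fun N a x hx => ?_⟩
    have hth : ∀ w, w ∉ thickening r0 J → r0 ≤ infDist w J := by
      intro w hw
      by_contra hcon
      refine hw ?_
      rw [mem_thickening_iff]
      obtain ⟨y, hy, h1⟩ := (infDist_lt_iff hJ).1 (not_le.1 hcon)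
      exact ⟨y, hy, h1⟩
    have hbd : Bornology.IsBounded (thickening r0 J) := h.Jc.isBounded.thickening
    have hcs : ∀ n, HasCompactSupport (g n) := by
      intro n
      refine HasCompactSupport.of_support_subset_isCompact (K := cthickening r0 J)
        (Metric.isCompact_of_isClosed_isBounded isClosed_cthickening h.Jc.isBounded.cthickening) fun w hw => ?_
      by_contra hcon
      exact hw (hz n w (lt_of_lt_of_le (by linarith) (hth w fun h1 => hcon (thickening_subset_cthickening r0 J h1))))
    have hdz : ∀ n w, w ∉ thickening r0 J → db (g n) w = 0 := by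
      intro n w hw
      have h1 : {u : ℂ | 7 / 8 * r0 < infDist u J} ∈ 𝓝 w :=
        (isOpen_lt continuous_const (continuous_infDist_pt J)).mem_nhds (lt_of_lt_of_le (by linarith) (hth w hw))
      have h2 : g n =ᶠ[𝓝 w] fun _ => 0 := by
        filter_upwards [h1] with u hu
        exact hz n u hu
      unfold db
      rw [h2.fderiv_eq]
      simp
    have h1 : ∀ n, ‖∑ i ∈ Finset.range N, a i * g n (x i)‖ ≤
        M * ∫ w in thickening r0 J, ‖∑ i ∈ Finset.range N, a i / (w - x i)‖ := fun n =>
      pair (hg n) (hcs n) isOpen_thickening.measurableSet hbd (hdz n) (hb n) N a x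
    have h2 : Tendsto (fun n => ∑ i ∈ Finset.range N, a i * g n (x i)) atTop (𝓝 (∑ i ∈ Finset.range N, a i * V (x i))) :=
      tendsto_finset_sum _ fun i hi => (hl (x i) (hx i (Finset.mem_range.1 hi))).const_mul (a i)
    exact le_of_tendsto h2.norm (Eventually.of_forall h1)

end Pool.Agent.H18.WE
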